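import Pool.Agent.Q59.CC.Rel
import Pool.Agent.Q59.LS.Vec

/-!
# Cyclic covers of arbitrary varieties: labels and types
-/

namespace Pool.Agent.Q59.CC

open Finset Pool.Agent.H916R2 Pool.Agent.Q59.LS

/-- The numerical data of finitely many cyclic covers `X_j → Y_j` with very general branch divisors
`D_j`: the degree `q j` of the cover, which is a prime number or `4`, or `1`, which stands for the
divisor `D_j` itself; the degree `deg j` of the cohomology group, that is the dimension `n` of
`Y_j`, and `n - 1` for the divisor; the dimension `dim j` of its eigenspaces, or of the vanishing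
cohomology of the divisor; and `euler j`, which is `(-1) ^ (n - 1)` times the Euler characteristic of `D_j`. -/
structure Covers (J : Type) where
  q : J → ℕ
  q_ok : ∀ j, q j = 1 ∨ (q j).Prime ∨ q j = 4
  deg : J → ℕ
  dim : J → ℕ
  euler : J → ℤ

variable {J : Type}

/-- The labels `i = (j, a)` of the spaces `V_i`: `a` is a residue modulo `N` which is killed by the
degree `q j` of the cover, and it is not zero unless `q j = 1`. -/
abbrev Label (N : ℕ) (C : Covers J) : Type :=
  {i : J × ZMod N // (C.q i.1 : ZMod N) * i.2 = 0 ∧ (C.q i.1 = 1 ∨ i.2 ≠ 0)}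

variable {N : ℕ} {C : Covers J}

/-- the number of the cover -/
abbrev num (i : Label N C) : J := i.1.1

/-- the character -/
abbrev ch (i : Label N C) : ZMod N := i.1.2

/-- The label `(j, -a)` of the dual space. -/
def starLabel (i : Label N C) : Label N C :=
  ⟨(i.1.1, -i.1.2), by rw [mul_neg, i.2.1, neg_zero], i.2.2.imp id neg_ne_zero.mpr⟩

lemma starLabel_starLabel (i : Label N C) : starLabel (starLabel i) = i :=
  Subtype.ext (Prod.ext rfl (neg_neg _))

/-- The spaces `V_i`, `i = (j, a)`: the eigenspace of the character `a` in the middle cohomology of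
`X_j`, or the vanishing cohomology of `D_j` if `q j = 1`. If `2 a = 0` the pairing is a form on `V_i`,
which is symmetric if the degree of the cohomology group is even and alternating otherwise. -/
def spaces (N : ℕ) (C : Covers J) : Labels (Label N C) where
  star := starLabel
  star_star := starLabel_starLabel
  orth i := decide (ch i + ch i = 0 ∧ Even (C.deg (num i)))
  orth_star i h := by
    have h1 := (of_decide_eq_true h).1
    exact Subtype.ext (Prod.ext rfl (neg_eq_of_add_eq_zero_left h1))
  dim i := C.dim (num i)
  dim_star _ := rfl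

/-- The sawtooth function: `a / N - 1 / 2`, and `0` for `a = 0`. -/
noncomputable def sawtooth (a : ZMod N) : ℚ := if a = 0 then 0 else (a.val : ℚ) / N - 1 / 2

/-- The Hodge number of the determinant of `V_i` at the embedding given by the unit `t`, minus half
the weight. -/
noncomputable def excess (t : ZMod N) (i : Label N C) : ℚ :=
  C.euler (num i) * sawtooth (t * ch i)

/-- A tensor with `s` letters and values in `W` is a Hodge tensor if it is invariant under `D` and,
at all embeddings `t`, has the same type `(p, p)`: the family `F` describes the types in `W`, and on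
the invariants of `D` the Hodge operator on `V_i` can be replaced by its average eigenvalue. -/
structure IsHodgeTensor [Fintype J] [DecidableEq J] [NeZero N] (ε : Letter (spaces N C) → ℂ)
    {W : Type} [AddCommGroup W] [Module ℂ W] (F : (ZMod N)ˣ → ℚ → Submodule ℂ W) (c : ℚ) {s : ℕ}
    (x : (Fin s → Letter (spaces N C)) → W) : Prop where
  inv : ∀ g, InD ε g → actW g x = x
  type : ∀ (t : (ZMod N)ˣ) (w : Fin s → Letter (spaces N C)),
    x w ∈ F t (c - ∑ k, excess (t : ZMod N) (w k).1 / (spaces N C).dim (w k).1)

/-- Nonzero elements of `W` which are of a pure type `(., q t)` at all embeddings `t` have the same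
type at all embeddings. -/
def NoCM {W : Type} [AddCommGroup W] [Module ℂ W] (F : (ZMod N)ˣ → ℚ → Submodule ℂ W) :
    Prop :=
  ∀ (q : (ZMod N)ˣ → ℚ) (z : W), z ≠ 0 → (∀ t, z ∈ F t (q t)) → ∀ t t', q t = q t'

/-- The sum of the numbers `euler j` over the members `(j, a)` of the list `μ`. -/
def weight {l : ℕ} (μ : Fin l → Label N C) (a : ZMod N) : ℤ :=
  ∑ k, if ch (μ k) = a then C.euler (num (μ k)) else 0

/-- The list `μ` is balanced. -/
def Balanced {l : ℕ} (μ : Fin l → Label N C) : Prop := ∀ a, weight μ a = weight μ (-a)

/-- The covers of degree three and more have different degrees, and branch divisors with nonzero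
Euler characteristics. -/
def Separate (C : Covers J) : Prop :=
  (∀ j j', 2 < C.q j → C.q j = C.q j' → j = j') ∧ ∀ j, 2 < C.q j → C.euler j ≠ 0

section

variable [NeZero N]

lemma sawtooth_eq (a : ZMod N) : sawtooth a = (saw a : ℚ) / (2 * N) := by
  have hN : (N : ℚ) ≠ 0 := by exact_mod_cast NeZero.ne N
  unfold sawtooth saw
  split_ifs
  · simp
  · push_cast
    field_simp

lemma sawtooth_neg (a : ZMod N) : sawtooth (-a) = - sawtooth a := by
  rw [sawtooth_eq, sawtooth_eq, saw_neg]
  push_cast
  ring

lemma excess_star (t : ZMod N) (i : Label N C) :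
    excess t ((spaces N C).star i) = - excess t i := by
  change (C.euler (num i) : ℚ) * sawtooth (t * -ch i) = -(C.euler (num i) * sawtooth (t * ch i))
  rw [mul_neg, sawtooth_neg, mul_neg]

lemma excess_neg (t : ZMod N) (i : Label N C) : excess (-t) i = - excess t i := by
  unfold excess
  rw [neg_mul, sawtooth_neg, mul_neg]

lemma sum_excess {l : ℕ} (μ : Fin l → Label N C) (t : ZMod N) :
    ∑ k, excess t (μ k) = ((∑ a, weight μ a * saw (t * a) : ℤ) : ℚ) / (2 * N) := by
  unfold weight
  have h1 : ∑ a, (∑ k, if ch (μ k) = a then C.euler (num (μ k)) else 0) * saw (t * a) =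
      ∑ k, C.euler (num (μ k)) * saw (t * ch (μ k)) := by
    simp only [sum_mul]
    rw [sum_comm]
    refine sum_congr rfl fun k _ => ?_
    simp only [ite_mul, zero_mul]
    rw [sum_ite_eq univ (ch (μ k)), if_pos (mem_univ _)]
  rw [h1]
  push_cast
  rw [sum_div]
  refine sum_congr rfl fun k _ => ?_
  unfold excess
  rw [sawtooth_eq]
  ring

omit [NeZero N] in
lemma order_of_label (i : Label N C) : ch i = 0 ∨ (addOrderOf (ch i)).Prime ∨ addOrderOf (ch i) = 4 := by
  by_cases h0 : ch i = 0
  · exact Or.inl h0
  right
  have h1 : addOrderOf (ch i) ∣ C.q (num i) := by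
    rw [addOrderOf_dvd_iff_nsmul_eq_zero, nsmul_eq_mul]
    exact i.2.1
  have h2 : addOrderOf (ch i) ≠ 1 := fun h => h0 (AddMonoid.addOrderOf_eq_one_iff.mp h)
  rcases C.q_ok (num i) with h | h | h
  · rw [h] at h1
    exact absurd (Nat.dvd_one.mp h1) h2
  · rcases (Nat.dvd_prime h).mp h1 with h3 | h3
    · exact absurd h3 h2
    · rw [h3]; exact Or.inl h
  · rw [h] at h1
    have h3 : addOrderOf (ch i) ≤ 4 := Nat.le_of_dvd (by norm_num) h1
    generalize addOrderOf (ch i) = d at h1 h2 h3 ⊢
    interval_cases d
    · norm_num at h1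
    · exact absurd rfl h2
    · exact Or.inl Nat.prime_two
    · norm_num at h1
    · exact Or.inr rfl

/-- lists of determinants of Hodge type are balanced -/
theorem balanced_of_excess {l : ℕ} {μ : Fin l → Label N C}
    (h : ∀ t : (ZMod N)ˣ, ∑ k, excess (t : ZMod N) (μ k) = 0) : Balanced μ := by
  have hN : (N : ℚ) ≠ 0 := by exact_mod_cast NeZero.ne N
  refine symm_of_rel (x := weight μ) (fun t => ?_) fun a ha => ?_
  · have h1 := h t
    rw [sum_excess, div_eq_zero_iff] at h1
    rcases h1 with h1 | h1
    · exact_mod_cast h1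
    · exact absurd h1 (by positivity)
  · unfold weight at ha
    obtain ⟨k, _, hk⟩ := exists_ne_zero_of_sum_ne_zero ha
    have h2 : ch (μ k) = a := by
      by_contra h3
      rw [if_neg h3] at hk
      exact hk rfl
    rw [← h2]
    exact order_of_label (μ k)

/-- if the degrees are different, reduced balanced lists consist of orthogonal labels -/
theorem orth_of_balanced (hC : Separate C) {l : ℕ} {μ : Fin l → Label N C}
    (hr : Reduced (spaces N C) μ) (hb : Balanced μ) (k : Fin l) : (spaces N C).orth (μ k) = true := by
  classical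
  by_contra ho
  set i := μ k with hi
  have hstar := hr.star k
  -- the label is not dual to itself
  have h1 : ch i + ch i ≠ 0 := by
    intro h2
    refine hstar k ho ?_
    exact Subtype.ext (Prod.ext rfl (neg_eq_of_add_eq_zero_left h2).symm)
  have h0 : ch i ≠ 0 := fun h => h1 (by rw [h, add_zero])
  have hdvd : addOrderOf (ch i) ∣ C.q (num i) := by
    rw [addOrderOf_dvd_iff_nsmul_eq_zero, nsmul_eq_mul]
    exact i.2.1
  -- the order of the character is the degree of the cover
  have key : ∀ i' : Label N C, (ch i' = ch i ∨ ch i' = -ch i) →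
      addOrderOf (ch i) = C.q (num i') := by
    intro i' hi'
    have h2 : addOrderOf (ch i') = addOrderOf (ch i) := by
      rcases hi' with h | h
      · rw [h]
      · rw [h, addOrderOf_neg]
    have h3 : addOrderOf (ch i) ∣ C.q (num i') := by
      rw [← h2, addOrderOf_dvd_iff_nsmul_eq_zero, nsmul_eq_mul]
      exact i'.2.1
    have h4 : addOrderOf (ch i) ≠ 1 := fun h => h0 (AddMonoid.addOrderOf_eq_one_iff.mp h)
    have h5 : addOrderOf (ch i) ≠ 2 := by
      intro h
      apply h1
      rw [← two_nsmul, ← h]
      exact addOrderOf_nsmul_eq_zero _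
    rcases C.q_ok (num i') with h | h | h
    · rw [h] at h3
      exact absurd (Nat.dvd_one.mp h3) h4
    · rcases (Nat.dvd_prime h).mp h3 with h6 | h6
      · exact absurd h6 h4
      · exact h6
    · rw [h] at h3 ⊢
      have h6 : addOrderOf (ch i) ≤ 4 := Nat.le_of_dvd (by norm_num) h3
      generalize addOrderOf (ch i) = d at h3 h4 h5 h6 ⊢
      interval_cases d
      · norm_num at h3
      · exact absurd rfl h4
      · exact absurd rfl h5
      · norm_num at h3
      · rfl
  have hq : 2 < C.q (num i) := by
    have h2 := key i (Or.inl rfl)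
    rw [← h2]
    have h4 : addOrderOf (ch i) ≠ 1 := fun h => h0 (AddMonoid.addOrderOf_eq_one_iff.mp h)
    have h5 : addOrderOf (ch i) ≠ 2 := by
      intro h
      apply h1
      rw [← two_nsmul, ← h]
      exact addOrderOf_nsmul_eq_zero _
    have h6 := addOrderOf_pos (ch i)
    omega
  have hnum : ∀ i' : Label N C, (ch i' = ch i ∨ ch i' = -ch i) → num i' = num i := by
    intro i' hi'
    refine (hC.1 (num i) (num i') hq ?_).symm
    rw [← key i (Or.inl rfl), ← key i' hi']
  have h2 := hb (ch i)
  unfold weight at h2
  have h3 : ∀ k', (if ch (μ k') = ch i then C.euler (num (μ k')) else 0) =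
      if ch (μ k') = ch i then C.euler (num i) else 0 := by
    intro k'
    split_ifs with h
    · rw [hnum (μ k') (Or.inl h)]
    · rfl
  have h4 : ∀ k', (if ch (μ k') = -ch i then C.euler (num (μ k')) else 0) = 0 := by
    intro k'
    split_ifs with h
    · exfalso
      refine hstar k' ho ?_
      exact Subtype.ext (Prod.ext (hnum (μ k') (Or.inr h)) h)
    · rfl
  rw [sum_congr rfl fun k' _ => h3 k', sum_congr rfl fun k' _ => h4 k', sum_const_zero,
    ← sum_filter, sum_const, nsmul_eq_mul] at h2
  rcases mul_eq_zero.mp h2 with h5 | h5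
  · have h6 : 0 < (univ.filter fun k' => ch (μ k') = ch i).card :=
      card_pos.mpr ⟨k, mem_filter.mpr ⟨mem_univ _, rfl⟩⟩
    omega
  · exact hC.2 (num i) hq h5

end

end Pool.Agent.Q59.CC
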