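import Pool.Agent.Q59.CC.Labels

/-!
# Cyclic covers of arbitrary varieties: Hodge tensors
-/

namespace Pool.Agent.Q59.CC

open Finset Pool.Agent.H916R2 Pool.Agent.Q59.LS

variable {J : Type} [Fintype J] [DecidableEq J] {N : ℕ} [NeZero N] {C : Covers J}
  {ε : Letter (spaces N C) → ℂ} {W : Type} [AddCommGroup W] [Module ℂ W]
  {F : (ZMod N)ˣ → ℚ → Submodule ℂ W} {c : ℚ} {s : ℕ}

omit [Fintype J] [DecidableEq J] in
/-- the excesses vanish if the types in `W` are constant -/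
lemma excess_zero (hF : NoCM F) {l : ℕ} {μ : Fin l → Label N C} {z : W} (hz0 : z ≠ 0)
    (hz : ∀ t : (ZMod N)ˣ, z ∈ F t (c - ∑ j, excess (t : ZMod N) (μ j))) (t : (ZMod N)ˣ) :
    ∑ j, excess (t : ZMod N) (μ j) = 0 := by
  have hconst := hF (fun t => c - ∑ j, excess (t : ZMod N) (μ j)) z hz0 hz
  have h1 := hconst t (-t)
  have hanti : ∑ j, excess (((-t : (ZMod N)ˣ)) : ZMod N) (μ j) =
      - ∑ j, excess (t : ZMod N) (μ j) := by
    rw [← sum_neg_distrib]
    exact sum_congr rfl fun j _ => by rw [Units.val_neg, excess_neg]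
  rw [hanti] at h1
  linarith

/-- **Hodge tensors**: general form with a predicate. -/
theorem core (hε : ∀ x, ¬ (spaces N C).orth x.1 = true → ε (dual x) = -ε x) (hε0 : ∀ x, ε x ≠ 0)
    (hF : NoCM F) {x : (Fin s → Letter (spaces N C)) → W} (hx : IsHodgeTensor ε F c x) :
    x ∈ spanZ (fun _ μ z => (∀ t : (ZMod N)ˣ, z ∈ F t c) ∧
      Reduced (spaces N C) μ ∧ Balanced μ) ε (Fin s) := by
  classical
  have key : x ∈ spanZ (fun (l : ℕ) (μ : Fin l → Label N C) z => z = 0 ∨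
      ((∀ t : (ZMod N)ˣ, z ∈ F t c) ∧ Reduced (spaces N C) μ ∧ Balanced μ)) ε (Fin s) := by
    refine mainR (Λ := spaces N C) hε hε0
      (fun (t : (ZMod N)ˣ) i => excess (t : ZMod N) i)
      (fun t i => excess_star _ i) F c hx.inv (fun t w => hx.type t w) _
      (fun l μ hr _ z hz => ?_)
    by_cases hz0 : z = 0
    · exact Or.inl hz0
    right
    have hoff := excess_zero hF hz0 hz
    refine ⟨fun t => ?_, hr, balanced_of_excess hoff⟩
    have h1 := hz t
    rw [hoff t, sub_zero] at h1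
    exact h1
  refine (Submodule.span_le.mpr ?_ :
    spanZ (fun (l : ℕ) (μ : Fin l → Label N C) z => z = 0 ∨
      ((∀ t : (ZMod N)ˣ, z ∈ F t c) ∧ Reduced (spaces N C) μ ∧ Balanced μ)) ε (Fin s) ≤ _) key
  rintro y ⟨l, p, μ, ν, e, z, hz | hz, rfl⟩
  · subst hz
    have h1 : (fun w => prodOf ε μ ν e w • (0 : W)) = 0 := by
      funext w; simp
    rw [h1]
    exact Submodule.zero_mem _
  · exact Submodule.subset_span ⟨l, p, μ, ν, e, z, hz, rfl⟩

omit [NeZero N] in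
lemma spanZ_mono {P P' : ∀ l : ℕ, (Fin l → Label N C) → W → Prop}
    (h : ∀ l μ z, P l μ z → P' l μ z) :
    spanZ (Λ := spaces N C) P ε (Fin s) ≤ spanZ P' ε (Fin s) := by
  refine Submodule.span_le.mpr ?_
  rintro y ⟨l, p, μ, ν, e, z, hz, rfl⟩
  exact Submodule.subset_span ⟨l, p, μ, ν, e, z, h _ _ _ hz, rfl⟩

/-- **Hodge tensors**, covers of different degrees. -/
theorem core_separate (hC : Separate C)
    (hε : ∀ x, ¬ (spaces N C).orth x.1 = true → ε (dual x) = -ε x) (hε0 : ∀ x, ε x ≠ 0)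
    (hF : NoCM F) {x : (Fin s → Letter (spaces N C)) → W} (hx : IsHodgeTensor ε F c x) :
    x ∈ spanZ (fun _ μ z => (∀ t : (ZMod N)ˣ, z ∈ F t c) ∧
      Reduced (spaces N C) μ ∧ ∀ k, (spaces N C).orth (μ k) = true) ε (Fin s) :=
  spanZ_mono (fun _ _ _ h => ⟨h.1, h.2.1, orth_of_balanced hC h.2.1 h.2.2⟩) (core hε hε0 hF hx)

end Pool.Agent.Q59.CC
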