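import Pool.Agent.Q59.CC.Main

/-!
# Several covers of the same family
-/

namespace Pool.Agent.Q59.CC

open Finset Pool.Agent.H916R2 Pool.Agent.Q59.LS

variable {J : Type} {N : ℕ} {C : Covers J}

/-- Covers of the same degree, at least three, have branch divisors with the same Euler
characteristic, which is not zero. -/
def SameFamily (C : Covers J) : Prop :=
  (∀ j j', 2 < C.q j → C.q j = C.q j' → C.euler j = C.euler j') ∧ ∀ j, 2 < C.q j → C.euler j ≠ 0

/-- The number of the members of the list `μ` with the character `a`. -/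
def count {l : ℕ} (μ : Fin l → Label N C) (a : ZMod N) : ℕ :=
  (univ.filter fun k => ch (μ k) = a).card

/-- For `2 a ≠ 0` the characters `a` and `-a` occur equally often in the list `μ`. -/
def Paired {l : ℕ} (μ : Fin l → Label N C) : Prop :=
  ∀ a : ZMod N, a + a ≠ 0 → count μ a = count μ (-a)

/-- the order of a character which is not dual to itself is the degree of the cover -/
lemma order_eq [NeZero N] (i : Label N C) (h1 : ch i + ch i ≠ 0) :
    addOrderOf (ch i) = C.q (num i) ∧ 2 < C.q (num i) := by
  have h0 : ch i ≠ 0 := fun h => h1 (by rw [h, add_zero])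
  have h3 : addOrderOf (ch i) ∣ C.q (num i) := by
    rw [addOrderOf_dvd_iff_nsmul_eq_zero, nsmul_eq_mul]
    exact i.2.1
  have h4 : addOrderOf (ch i) ≠ 1 := fun h => h0 (AddMonoid.addOrderOf_eq_one_iff.mp h)
  have h5 : addOrderOf (ch i) ≠ 2 := by
    intro h
    apply h1
    rw [← two_nsmul, ← h]
    exact addOrderOf_nsmul_eq_zero _
  have h6 := addOrderOf_pos (ch i)
  have key : addOrderOf (ch i) = C.q (num i) := by
    rcases C.q_ok (num i) with h | h | h
    · rw [h] at h3
      exact absurd (Nat.dvd_one.mp h3) h4
    · rcases (Nat.dvd_prime h).mp h3 with h6 | h6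
      · exact absurd h6 h4
      · exact h6
    · rw [h] at h3 ⊢
      have h6 : addOrderOf (ch i) ≤ 4 := Nat.le_of_dvd (by norm_num) h3
      generalize addOrderOf (ch i) = d at h3 h4 h5 h6 ⊢
      interval_cases d
      · norm_num at h3
      · exact absurd rfl h4
      · exact absurd rfl h5
      · norm_num at h3
      · rfl
  exact ⟨key, by omega⟩

/-- in a family, balanced lists are paired -/
theorem paired_of_balanced [NeZero N] (hC : SameFamily C) {l : ℕ} {μ : Fin l → Label N C}
    (hb : Balanced μ) : Paired μ := by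
  classical
  intro a ha
  by_cases hex : ∃ k, ch (μ k) = a ∨ ch (μ k) = -a
  · obtain ⟨k0, hk0⟩ := hex
    have hne : ∀ k, (ch (μ k) = a ∨ ch (μ k) = -a) → ch (μ k) + ch (μ k) ≠ 0 := by
      intro k hk h
      rcases hk with h' | h'
      · rw [h'] at h
        exact ha h
      · rw [h'] at h
        exact ha (by linear_combination -h)
    have hord : ∀ k, (ch (μ k) = a ∨ ch (μ k) = -a) → addOrderOf (ch (μ k)) = addOrderOf a := by
      intro k hk
      rcases hk with h | h
      · rw [h]
      · rw [h, addOrderOf_neg]
    have hE : ∀ k, (ch (μ k) = a ∨ ch (μ k) = -a) →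
        C.euler (num (μ k)) = C.euler (num (μ k0)) := by
      intro k hk
      obtain ⟨h1, h2⟩ := order_eq (μ k) (hne k hk)
      obtain ⟨h3, _⟩ := order_eq (μ k0) (hne k0 hk0)
      exact hC.1 _ _ h2 (by rw [← h1, ← h3, hord k hk, hord k0 hk0])
    have h2 := hb a
    unfold weight at h2
    have h3 : ∀ b, (b = a ∨ b = -a) →
        (∑ k, if ch (μ k) = b then C.euler (num (μ k)) else 0) =
          (count μ b : ℤ) * C.euler (num (μ k0)) := by
      intro b hb'
      have h4 : ∀ k, (if ch (μ k) = b then C.euler (num (μ k)) else 0) =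
          if ch (μ k) = b then C.euler (num (μ k0)) else 0 := by
        intro k
        split_ifs with h
        · exact hE k (by rw [h]; exact hb')
        · rfl
      rw [sum_congr rfl fun k _ => h4 k, ← sum_filter, sum_const, nsmul_eq_mul]
      rfl
    rw [h3 a (Or.inl rfl), h3 (-a) (Or.inr rfl)] at h2
    have h5 := hC.2 _ (order_eq (μ k0) (hne k0 hk0)).2
    exact_mod_cast mul_right_cancel₀ h5 h2
  · push Not at hex
    unfold count
    rw [filter_eq_empty_iff.mpr fun k _ => (hex k).1,
      filter_eq_empty_iff.mpr fun k _ => (hex k).2]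

end Pool.Agent.Q59.CC
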