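import Pool.Agent.Q59.DT.Reach

/-!
# Relations between the sawtooth functions of characters of prime order
-/

namespace Pool.Agent.Q59.CC

open Finset Pool.Agent.H916R2 Pool.Agent.Q59.FS Pool.Agent.Q59.DT

/-- In degree `4` and in prime degree the only relations between the functions `t ↦ ((t a / N))` are
given by the pairs `a, -a`. -/
theorem symm_of_rel {N : ℕ} [NeZero N] {x : ZMod N → ℤ} (hx : Rel x)
    (hsupp : ∀ a, x a ≠ 0 → a = 0 ∨ (addOrderOf a).Prime ∨ addOrderOf a = 4) (a : ZMod N) :
    x a = x (-a) := by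
  classical
  by_contra hne
  have h1 : (addOrderOf a).Prime ∨ addOrderOf a = 4 := by
    have h2 : x a ≠ 0 ∨ x (-a) ≠ 0 := by
      by_contra h
      push Not at h
      exact hne (h.1.trans h.2.symm)
    rcases h2 with h2 | h2
    · rcases hsupp a h2 with h3 | h3
      · exact absurd (by rw [h3, neg_zero]) hne
      · exact h3
    · rcases hsupp (-a) h2 with h3 | h3
      · exact absurd (by rw [neg_eq_zero.mp h3, neg_zero]) hne
      · rwa [addOrderOf_neg] at h3
  set d := addOrderOf a with hd
  have hd0 : 0 < d := by rcases h1 with h | h; exacts [h.pos, by omega]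
  have hNz : NeZero d := ⟨hd0.ne'⟩
  have hdN : d ∣ N := by
    have := addOrderOf_dvd_card (x := a)
    rwa [ZMod.card] at this
  obtain ⟨R, hR'⟩ := hdN
  have hR : R * d = N := by rw [hR', mul_comm]
  obtain ⟨u0, hu0⟩ := exists_unit hR hd.symm
  have hd2 : d ≠ 2 := by
    intro h2
    have h3 : (2 : ℕ) • a = 0 := by rw [← h2, hd]; exact addOrderOf_nsmul_eq_zero a
    have h4 : -a = a := by
      rw [two_nsmul] at h3
      exact neg_eq_of_add_eq_zero_left h3
    exact hne (by rw [h4])
  have hu1 : u0 ≠ -u0 := by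
    intro h
    apply hne
    have h5 : -a = a := by
      rw [← hu0, ← iota_neg hR]
      congr 1
      have := congrArg Units.val h
      rw [Units.val_neg] at this
      exact this.symm
    rw [h5]
  set b : (ZMod d)ˣ → ℚ := fun u => (if u = u0 then 1 else 0) - if u = -u0 then 1 else 0 with hb
  have hodd : ∀ u, b (-u) = - b u := by
    intro u
    simp only [hb]
    have e1 : (-u = u0) ↔ (u = -u0) := by rw [neg_eq_iff_eq_neg]
    have e2 : (-u = -u0) ↔ (u = u0) := neg_inj
    simp only [e1, e2]
    ring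
  have htot : ∑ u, b u = 0 := by
    have h6 : ∑ u, b u = ∑ u, b (-u) := (Equiv.sum_comp (Equiv.neg _) b).symm
    have h7 : ∑ u, b (-u) = - ∑ u, b u := by
      rw [← sum_neg_distrib]
      exact sum_congr rfl fun u _ => hodd u
    linarith
  have hker : ∀ ℓ : ℕ, ℓ.Prime → ℓ ∣ d → ∀ u, ∑ κ ∈ KF (KL d ℓ), b (u * κ) = 0 := by
    intro ℓ hℓ hℓd u
    have h8 : KF (KL d ℓ) = univ := by
      ext κ
      rw [mem_KF, mem_KL]
      simp only [mem_univ, iff_true]
      rcases h1 with h | h
      · have h9 : ℓ = d := (Nat.prime_dvd_prime_iff_eq hℓ h).mp hℓd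
        rw [h9, ZMod.natCast_self, zero_mul]
      · have h9 : ℓ = 2 := by
          rw [h] at hℓd
          exact (Nat.prime_dvd_prime_iff_eq hℓ Nat.prime_two).mp
            (hℓ.dvd_of_dvd_pow (show ℓ ∣ 2 ^ 2 from hℓd))
        rw [h9]
        clear_value d
        subst h
        revert κ
        decide
    rw [h8]
    rw [← htot]
    exact Equiv.sum_comp (Equiv.mulLeft u) b
  obtain ⟨φ, h2, h3, h4⟩ := functional hR hodd hker
  have h5 := rel_rat hx h2
  have h6 : ∀ a', a' ≠ a → a' ≠ -a → (x a' : ℚ) * φ a' = 0 := by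
    intro a' ha ha'
    by_cases hx0 : x a' = 0
    · rw [hx0]; simp
    by_cases hφ0 : φ a' = 0
    · rw [hφ0, mul_zero]
    exfalso
    obtain ⟨r, e, c, h7, h8, h9, h10, h11⟩ := h4 a' hφ0
    have h12 : addOrderOf a' = d := by
      rcases hsupp a' hx0 with h | h | h
      · rw [h, addOrderOf_zero] at h7
        have h13 : d ∣ 1 := ⟨r, h7⟩
        have h14 : d = 1 := Nat.dvd_one.mp h13
        rcases h1 with h | h
        · rw [h14] at h; exact absurd h (by norm_num)
        · omega
      · have h13 : d ∣ addOrderOf a' := ⟨r, h7⟩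
        rcases (Nat.dvd_prime h).mp h13 with h14 | h14
        · rcases h1 with h | h
          · rw [h14] at h; exact absurd h (by norm_num)
          · omega
        · exact h14.symm
      · have h13 : d ∣ 4 := by rw [← h]; exact ⟨r, h7⟩
        rw [h]
        rcases h1 with h15 | h15
        · exfalso
          have h16 : d = 2 := (Nat.prime_dvd_prime_iff_eq h15 Nat.prime_two).mp
            (h15.dvd_of_dvd_pow (show d ∣ 2 ^ 2 from h13))
          exact hd2 h16
        · exact h15.symm
    obtain ⟨u, hu⟩ := exists_unit hR h12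
    rw [← hu, h3] at hφ0
    simp only [hb] at hφ0
    by_cases hu2 : u = u0
    · rw [hu2, hu0] at hu
      exact ha hu.symm
    by_cases hu3 : u = -u0
    · rw [hu3, Units.val_neg, iota_neg hR, hu0] at hu
      exact ha' hu.symm
    rw [if_neg hu2, if_neg hu3] at hφ0
    exact hφ0 (by ring)
  have hane : a ≠ -a := fun h => hne (by rw [← h])
  have h7 : ∑ a', (x a' : ℚ) * φ a' = (x a : ℚ) * φ a + (x (-a) : ℚ) * φ (-a) := by
    rw [← sum_subset (subset_univ {a, -a}) fun a' _ h => h6 a' (fun h' => h (by simp [h']))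
      (fun h' => h (by simp [h']))]
    exact sum_pair hane
  have h8 : φ a = 1 := by
    rw [← hu0, h3]
    simp only [hb]
    rw [if_pos trivial, if_neg hu1]
    ring
  rw [h7, h2.neg, h8] at h5
  have h9 : (x a : ℚ) = x (-a) := by linarith
  exact hne (by exact_mod_cast h9)

end Pool.Agent.Q59.CC
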